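import Pool.Agent.helper52.EU.SpecI
import Pool.Agent.helper22.FJ.WPN

/-!
# Row eu:SMC (MP_ad8ced_nt): the cells put together again
-/

set_option autoImplicit false

open Finset

namespace Pool.Agent.EU

open Pool.Agent.FI Pool.Agent.FJ

theorem SMC_int (S : Finset ℤ) (c v Y : ℝ) (hc : c ≠ 0) (hY : 0 ≤ Y) :
    ((S.filter fun l : ℤ => |v - c * l| ≤ Y).card : ℝ) ≤ 2 * (Y / |c|) + 1 := by
  have hc' : 0 < |c| := abs_pos.2 hc
  have hsub : (S.filter fun l : ℤ => |v - c * l| ≤ Y) ⊆ Icc ⌈v / c - Y / |c|⌉ ⌊v / c + Y / |c|⌋ := by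
    intro l hl
    rw [Finset.mem_filter] at hl
    have h1 : |v / c - l| ≤ Y / |c| := by
      rw [le_div_iff₀ hc', ← abs_mul]
      have : (v / c - l) * c = v - c * l := by field_simp
      rw [this]
      exact hl.2
    rw [abs_le] at h1
    rw [Finset.mem_Icc, Int.ceil_le, Int.le_floor]
    constructor <;> linarith [h1.1, h1.2]
  have h2 := Finset.card_le_card hsub
  rw [Int.card_Icc] at h2
  have h3 : ((S.filter fun l : ℤ => |v - c * l| ≤ Y).card : ℝ) ≤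
      ((⌊v / c + Y / |c|⌋ + 1 - ⌈v / c - Y / |c|⌉).toNat : ℝ) := by exact_mod_cast h2
  refine h3.trans ?_
  have h4 : ((⌊v / c + Y / |c|⌋ + 1 - ⌈v / c - Y / |c|⌉).toNat : ℝ) =
      ((max (⌊v / c + Y / |c|⌋ + 1 - ⌈v / c - Y / |c|⌉) 0 : ℤ) : ℝ) := by
    rw [← Int.ofNat_toNat]
    rfl
  rw [h4, Int.cast_max]
  have h5 : 0 ≤ Y / |c| := div_nonneg hY hc'.le
  refine max_le ?_ (by push_cast; linarith)
  push_cast
  have h6 := Int.floor_le (v / c + Y / |c|)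
  have h7 := Int.le_ceil (v / c - Y / |c|)
  linarith

/-- one coordinate in a mixed cell -/
theorem SMC_mix (A K₃ a a' : ℝ) (hK : 0 ≤ K₃) (h0 : 0 < a) (h1 : a ≤ A) (h2 : K₃ * |a' - a| ≤ |a| + A)
    (h3 : ¬ (0 < a' ∧ a' ≤ A)) : K₃ * |a - 0| ≤ 2 * A ∨ K₃ * |a - A| ≤ 2 * A := by
  rw [abs_of_pos h0] at h2
  by_cases hp : 0 < a'
  · right
    have h4 : A < a' := by
      by_contra h
      exact h3 ⟨hp, not_lt.1 h⟩
    have h5 : |a - A| ≤ |a' - a| := by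
      rw [abs_of_nonpos (by linarith), abs_of_nonneg (by linarith)]
      linarith
    have := mul_le_mul_of_nonneg_left h5 hK
    linarith
  · left
    have h5 : |a - 0| ≤ |a' - a| := by
      rw [sub_zero, abs_of_pos h0, abs_of_nonpos (by linarith)]
      linarith
    have := mul_le_mul_of_nonneg_left h5 hK
    linarith

open scoped Classical in
theorem SMC_Gc (hGPT : GPT_stmt) {x K₃ K₄ : ℕ} (hx : 1 ≤ x) (hK₃ : 1 ≤ K₃) (hK₄ : 1 ≤ K₄) (lam : ℤ → ℝ)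
    {b : ℕ} (hb : b < K₃) (m : ℤ) {D : ℕ} (χ : DirichletCharacter ℂ D) :
    Gc x K₃ K₄ lam b m χ = ∑ p ∈ Ioc (x : ℤ) (2 * x) ×ˢ Ioc (x : ℤ) (2 * x),
      if InC x K₃ K₄ b m p.1 p.2 then (starRingEnd ℂ) ((lam p.1 : ℂ) * χ (p.1 : ZMod D)) *
        ((lam p.2 : ℂ) * χ (p.2 : ZMod D)) else 0 := by
  obtain ⟨-, -, -, -, -, huni, hin, -⟩ := hGPT x (K₃ * K₄) hx (Nat.mul_pos hK₃ hK₄)
  have hlt : ∀ i ∈ Ico (b * K₄) ((b + 1) * K₄), i < K₃ * K₄ := by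
    intro i hi
    rw [Finset.mem_Ico] at hi
    exact lt_of_lt_of_le hi.2 (Nat.mul_le_mul_right K₄ hb)
  have hsub : ∀ i < K₃ * K₄, cl x (K₃ * K₄) i ⊆ Ioc (x : ℤ) (2 * x) := by
    intro i hi l hl
    rw [Finset.mem_Ioc]
    exact hin i hi l hl
  have hB : ∀ i < K₃ * K₄, ∀ j < K₃ * K₄, Fc x (K₃ * K₄) lam χ j * (starRingEnd ℂ) (Fc x (K₃ * K₄) lam χ i) =
      ∑ p ∈ Ioc (x : ℤ) (2 * x) ×ˢ Ioc (x : ℤ) (2 * x),
        if p.1 ∈ cl x (K₃ * K₄) i ∧ p.2 ∈ cl x (K₃ * K₄) j then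
          (starRingEnd ℂ) ((lam p.1 : ℂ) * χ (p.1 : ZMod D)) * ((lam p.2 : ℂ) * χ (p.2 : ZMod D)) else 0 := by
    intro i hi j hj
    rw [← Finset.sum_filter]
    have h1 : ((Ioc (x : ℤ) (2 * x) ×ˢ Ioc (x : ℤ) (2 * x)).filter fun p : ℤ × ℤ =>
        p.1 ∈ cl x (K₃ * K₄) i ∧ p.2 ∈ cl x (K₃ * K₄) j) = cl x (K₃ * K₄) i ×ˢ cl x (K₃ * K₄) j := by
      ext p
      rw [Finset.mem_filter, Finset.mem_product, Finset.mem_product]
      constructor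
      · exact fun h => h.2
      · exact fun h => ⟨⟨hsub i hi h.1, hsub j hj h.2⟩, h⟩
    rw [h1, Finset.sum_product]
    unfold Fc
    rw [mul_comm, map_sum, Finset.sum_mul_sum]
  unfold Gc
  have h2 : ∀ i ∈ Ico (b * K₄) ((b + 1) * K₄), ∀ j ∈ (range (K₃ * K₄)).filter (fun j : ℕ => (j : ℤ) - i = m),
      Fc x (K₃ * K₄) lam χ j * (starRingEnd ℂ) (Fc x (K₃ * K₄) lam χ i) =
      ∑ p ∈ Ioc (x : ℤ) (2 * x) ×ˢ Ioc (x : ℤ) (2 * x),
        if p.1 ∈ cl x (K₃ * K₄) i ∧ p.2 ∈ cl x (K₃ * K₄) j then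
          (starRingEnd ℂ) ((lam p.1 : ℂ) * χ (p.1 : ZMod D)) * ((lam p.2 : ℂ) * χ (p.2 : ZMod D)) else 0 := by
    intro i hi j hj
    rw [Finset.mem_filter, Finset.mem_range] at hj
    exact hB i (hlt i hi) j hj.1
  rw [Finset.sum_congr rfl fun i hi => Finset.sum_congr rfl (h2 i hi)]
  rw [Finset.sum_congr rfl fun i _ => Finset.sum_comm, Finset.sum_comm]
  refine Finset.sum_congr rfl fun p _ => ?_
  by_cases h : InC x K₃ K₄ b m p.1 p.2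
  · rw [if_pos h]
    obtain ⟨i, hi, j, hj, e, h1, h2⟩ := h
    rw [Finset.sum_eq_single i, Finset.sum_eq_single j]
    · rw [if_pos ⟨h1, h2⟩]
    · intro j' _ hne
      rw [if_neg]
      rintro ⟨-, h3⟩
      exact hne (huni _ _ _ h3 h2)
    · intro hj'
      rw [Finset.mem_filter] at hj'
      exact absurd ⟨hj, e⟩ hj'
    · intro i' _ hne
      refine Finset.sum_eq_zero fun j' _ => ?_
      rw [if_neg]
      rintro ⟨h3, -⟩
      exact hne (huni _ _ _ h3 h1)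
    · intro hi'
      exact absurd hi hi'
  · rw [if_neg h]
    refine Finset.sum_eq_zero fun i hi => Finset.sum_eq_zero fun j hj => ?_
    rw [if_neg]
    rintro ⟨h3, h4⟩
    rw [Finset.mem_filter] at hj
    exact h ⟨i, hi, j, hj.1, hj.2, h3, h4⟩

theorem SMC (hGPT : GPT_stmt) (hVAR : VAR_stmt) (hRNR : RNR_stmt) (hFFC : FFC_stmt) : SMC_stmt := by
  classical
  refine ⟨16, by norm_num, ?_⟩
  intro x N A K₁ K₃ K₄ hx hN hA hAx hK₁ hK₃ hK₄ hK M lam hlam z hz z' hz' hD D χ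
  have hK₃' : 1 ≤ K₃ := by omega
  have hK₃0 : (0 : ℝ) < K₃ := by exact_mod_cast hK₃'
  have hN0 : (0 : ℝ) < N := by exact_mod_cast hN
  have hA0 : (0 : ℝ) < A := by exact_mod_cast hA
  have hM : 0 ≤ M := (abs_nonneg _).trans (hlam 0)
  have hdl : dl z z' ≠ 0 := by
    intro h
    rw [h] at hD
    simp at hD
  have hdlR : (dl z z' : ℝ) ≠ 0 := by exact_mod_cast hdl
  have hdla : (((dl z z').natAbs : ℕ) : ℝ) = |(dl z z' : ℝ)| := by
    rw [Nat.cast_natAbs]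
    push_cast
    rfl
  obtain ⟨S, hS⟩ : ∃ S : Finset ℤ, S = Ioc (x : ℤ) (2 * x) := ⟨_, rfl⟩
  have hSc : (#S : ℝ) = x := by
    rw [hS, Int.card_Ioc]
    have : ((2 : ℤ) * x - x).toNat = x := by omega
    rw [this]
  obtain ⟨f, hf⟩ : ∃ f : ℤ × ℤ → ℂ, f = fun p => (starRingEnd ℂ) ((lam p.1 : ℂ) * χ (p.1 : ZMod D)) *
        ((lam p.2 : ℂ) * χ (p.2 : ZMod D)) := ⟨_, rfl⟩
  have hfM : ∀ p, ‖f p‖ ≤ M ^ 2 := by
    intro p
    rw [hf]
    show ‖(starRingEnd ℂ) ((lam p.1 : ℂ) * χ (p.1 : ZMod D)) * ((lam p.2 : ℂ) * χ (p.2 : ZMod D))‖ ≤ M ^ 2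
    have h1 : ∀ l : ℤ, ‖(lam l : ℂ) * χ (l : ZMod D)‖ ≤ M := by
      intro l
      rw [norm_mul, Complex.norm_real, Real.norm_eq_abs]
      have h2 := mul_le_mul (hlam l) (DirichletCharacter.norm_le_one χ (l : ZMod D)) (norm_nonneg _) hM
      rwa [mul_one] at h2
    rw [norm_mul, RCLike.norm_conj, pow_two]
    exact mul_le_mul (h1 _) (h1 _) (norm_nonneg _) hM
  obtain ⟨Gd, hGd⟩ : ∃ Gd : ℤ × ℤ → Prop, Gd = fun p => ∃ b < K₃, ∃ m ∈ GdC x K₃ K₄ A z z' b,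
      InC x K₃ K₄ b m p.1 p.2 := ⟨_, rfl⟩
  -- the sum over the good cells
  have h1 : ∑ b ∈ range K₃, ∑ m ∈ GdC x K₃ K₄ A z z' b, Gc x K₃ K₄ lam b m χ =
      ∑ p ∈ S ×ˢ S, if Gd p then f p else 0 := by
    have e1 : ∀ b ∈ range K₃, ∀ m ∈ GdC x K₃ K₄ A z z' b, Gc x K₃ K₄ lam b m χ =
        ∑ p ∈ S ×ˢ S, if InC x K₃ K₄ b m p.1 p.2 then f p else 0 := by
      intro b hb m _
      rw [Finset.mem_range] at hb
      rw [SMC_Gc hGPT hx hK₃' hK₄ lam hb m χ, hS, hf]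
    rw [Finset.sum_congr rfl fun b hb => Finset.sum_congr rfl (e1 b hb)]
    rw [Finset.sum_congr rfl fun b _ => Finset.sum_comm, Finset.sum_comm]
    refine Finset.sum_congr rfl fun p _ => ?_
    by_cases h : Gd p
    · rw [if_pos h]
      rw [hGd] at h
      obtain ⟨b, hb, m, hm, hC⟩ := h
      rw [Finset.sum_eq_single b, Finset.sum_eq_single m]
      · rw [if_pos hC]
      · intro m' _ hne
        rw [if_neg]
        intro hC'
        exact hne (WPN_uni hGPT x K₃ K₄ hx hK₃' hK₄ _ _ _ _ _ _ hC' hC).2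
      · intro hm'
        exact absurd hm hm'
      · intro b' _ hne
        refine Finset.sum_eq_zero fun m' _ => ?_
        rw [if_neg]
        intro hC'
        exact hne (WPN_uni hGPT x K₃ K₄ hx hK₃' hK₄ _ _ _ _ _ _ hC' hC).1
      · intro hb'
        exact absurd (Finset.mem_range.2 hb) hb'
    · rw [if_neg h]
      refine Finset.sum_eq_zero fun b hb => Finset.sum_eq_zero fun m hm => ?_
      rw [if_neg]
      intro hC
      apply h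
      rw [hGd]
      exact ⟨b, Finset.mem_range.1 hb, m, hm, hC⟩
  have h2 : LL x A lam z z' χ = ∑ p ∈ S ×ˢ S, f p * (Ind A z z' p.1 p.2 : ℂ) := by
    unfold LL
    rw [hS, Finset.sum_product]
    refine Finset.sum_congr rfl fun l₁ _ => Finset.sum_congr rfl fun l₂ _ => ?_
    rw [hf]
    show (lam l₁ : ℂ) * lam l₂ * (Ind A z z' l₁ l₂ : ℂ) * (starRingEnd ℂ) (χ (l₁ : ZMod D)) * χ (l₂ : ZMod D) =
      (starRingEnd ℂ) ((lam l₁ : ℂ) * χ (l₁ : ZMod D)) * ((lam l₂ : ℂ) * χ (l₂ : ZMod D)) * (Ind A z z' l₁ l₂ : ℂ)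
    rw [map_mul, Complex.conj_ofReal]
    ring
  obtain ⟨Bd, hBd⟩ : ∃ Bd : Finset (ℤ × ℤ), Bd = (S ×ˢ S).filter fun p => Ind A z z' p.1 p.2 ≠ 0 ∧ ¬ Gd p := ⟨_, rfl⟩
  have h3 : ‖∑ b ∈ range K₃, ∑ m ∈ GdC x K₃ K₄ A z z' b, Gc x K₃ K₄ lam b m χ - LL x A lam z z' χ‖ ≤
      (#Bd : ℝ) * M ^ 2 := by
    rw [h1, h2, ← Finset.sum_sub_distrib]
    have e1 : ∑ p ∈ S ×ˢ S, ((if Gd p then f p else 0) - f p * (Ind A z z' p.1 p.2 : ℂ)) =
        ∑ p ∈ Bd, ((if Gd p then f p else 0) - f p * (Ind A z z' p.1 p.2 : ℂ)) := by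
      rw [hBd]
      refine (Finset.sum_subset (Finset.filter_subset _ _) ?_).symm
      intro p hp hp'
      rw [Finset.mem_filter] at hp'
      by_cases hg : Gd p
      · rw [if_pos hg]
        rw [hGd] at hg
        obtain ⟨b, hb, m, hm, hC⟩ := hg
        unfold GdC at hm
        rw [Finset.mem_filter] at hm
        have h4 := hm.2.2 _ _ hC
        have h5 : Ind A z z' p.1 p.2 = 1 := if_pos h4
        rw [h5]
        simp
      · rw [if_neg hg]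
        have h5 : Ind A z z' p.1 p.2 = 0 := by
          by_contra h
          exact hp' ⟨hp, h, hg⟩
        rw [h5]
        simp
    rw [e1]
    refine (norm_sum_le _ _).trans ?_
    have e2 : ∀ p ∈ Bd, ‖(if Gd p then f p else 0) - f p * (Ind A z z' p.1 p.2 : ℂ)‖ ≤ M ^ 2 := by
      intro p hp
      rw [hBd, Finset.mem_filter] at hp
      rw [if_neg hp.2.2]
      have h5 : Ind A z z' p.1 p.2 = 1 := by
        by_cases h : 0 < a1 z z' p.1 p.2 ∧ a1 z z' p.1 p.2 ≤ A ∧ 0 < a2 z z' p.1 p.2 ∧ a2 z z' p.1 p.2 ≤ A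
        · exact if_pos h
        · exact absurd (if_neg h) hp.2.1
      rw [h5, Complex.ofReal_one, mul_one, zero_sub, norm_neg]
      exact hfM p
    calc ∑ p ∈ Bd, ‖(if Gd p then f p else 0) - f p * (Ind A z z' p.1 p.2 : ℂ)‖ ≤ ∑ p ∈ Bd, M ^ 2 :=
          Finset.sum_le_sum e2
      _ = (#Bd : ℝ) * M ^ 2 := by rw [Finset.sum_const, nsmul_eq_mul]
  -- the members of Bd
  have hmem : ∀ p ∈ Bd, (K₃ * |a1 z z' p.1 p.2 - 0| ≤ 2 * A ∨ K₃ * |a1 z z' p.1 p.2 - A| ≤ 2 * A) ∨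
      (K₃ * |a2 z z' p.1 p.2 - 0| ≤ 2 * A ∨ K₃ * |a2 z z' p.1 p.2 - A| ≤ 2 * A) := by
    intro p hp
    rw [hBd, Finset.mem_filter, Finset.mem_product] at hp
    obtain ⟨⟨hp1, hp2⟩, hI, hg⟩ := hp
    rw [hS, Finset.mem_Ioc] at hp1 hp2
    have hI' : 0 < a1 z z' p.1 p.2 ∧ a1 z z' p.1 p.2 ≤ A ∧ 0 < a2 z z' p.1 p.2 ∧ a2 z z' p.1 p.2 ≤ A := by
      by_contra h
      exact hI (if_neg h)
    obtain ⟨i1, i2, i3, i4⟩ := hI'
    obtain ⟨c, hc, hC⟩ := WPN_ex hGPT x K₃ K₄ hx hK₃' hK₄ p.1 p.2 hp1.1 hp1.2 hp2.1 hp2.2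
    rw [Finset.mem_product, Finset.mem_range] at hc
    have hng : ∃ l₁ l₂ : ℤ, InC x K₃ K₄ c.1 c.2 l₁ l₂ ∧
        ¬ (0 < a1 z z' l₁ l₂ ∧ a1 z z' l₁ l₂ ≤ A ∧ 0 < a2 z z' l₁ l₂ ∧ a2 z z' l₁ l₂ ≤ A) := by
      by_contra h
      push Not at h
      apply hg
      rw [hGd]
      refine ⟨c.1, hc.1, c.2, ?_, hC⟩
      unfold GdC
      rw [Finset.mem_filter]
      exact ⟨hc.2, ⟨_, _, hC⟩, fun l₁ l₂ hl => h l₁ l₂ hl⟩
    obtain ⟨l₁, l₂, hl, hbad⟩ := hng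
    obtain ⟨v1, v2⟩ := hVAR x N A K₁ K₃ K₄ hx hN hA hK₁ hK₃' hK₄ hK z hz z' hz' hD c.1 hc.1 c.2 l₁ l₂ p.1 p.2 hl hC
    by_cases hb1 : 0 < a1 z z' l₁ l₂ ∧ a1 z z' l₁ l₂ ≤ A
    · right
      exact SMC_mix A K₃ _ _ hK₃0.le i3 i4 v2 fun h => hbad ⟨hb1.1, hb1.2, h.1, h.2⟩
    · left
      exact SMC_mix A K₃ _ _ hK₃0.le i1 i2 v1 hb1
  -- counting
  have hN8 : (N : ℝ) ≤ |(N8 z : ℝ)| := by
    unfold ZD at hz
    rw [Finset.mem_filter] at hz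
    have h4 : N < (N8 z).natAbs := hz.2.1
    have h5 : (((N8 z).natAbs : ℕ) : ℝ) = |(N8 z : ℝ)| := by
      rw [Nat.cast_natAbs]
      push_cast
      rfl
    rw [← h5]
    exact_mod_cast h4.le
  obtain ⟨Q, hQ⟩ : ∃ Q : ℝ, Q = ((dl z z').natAbs : ℝ) * A / (K₃ * N) := ⟨_, rfl⟩
  have hQ0 : 0 ≤ Q := by rw [hQ]; positivity
  have hline : ∀ (c v T : ℝ), (N : ℝ) ≤ |c| →
      ((S.filter fun l₂ : ℤ => K₃ * |(v - c * (l₂ : ℝ)) / dl z z' - T| ≤ 2 * A).card : ℝ) ≤ 4 * (Q + 1) := by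
    intro c v T hc
    have hc0 : c ≠ 0 := by
      intro h
      rw [h, abs_zero] at hc
      linarith
    have hc0' : 0 < |c| := abs_pos.2 hc0
    have e1 : ((S.filter fun l₂ : ℤ => K₃ * |(v - c * (l₂ : ℝ)) / dl z z' - T| ≤ 2 * A).card : ℝ) ≤
        ((S.filter fun l : ℤ => |(v - T * dl z z') - c * (l : ℝ)| ≤ 2 * A / K₃ * |(dl z z' : ℝ)|).card : ℝ) := by
      have e0 : (S.filter fun l₂ : ℤ => (K₃ : ℝ) * |(v - c * (l₂ : ℝ)) / dl z z' - T| ≤ 2 * A) ⊆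
          S.filter fun l : ℤ => |(v - T * dl z z') - c * (l : ℝ)| ≤ 2 * A / K₃ * |(dl z z' : ℝ)| := by
        intro l hl
        rw [Finset.mem_filter] at hl ⊢
        refine ⟨hl.1, ?_⟩
        have h6 : (v - T * dl z z') - c * (l : ℝ) = ((v - c * (l : ℝ)) / dl z z' - T) * dl z z' := by
          field_simp
          ring
        rw [h6, abs_mul]
        refine mul_le_mul_of_nonneg_right ?_ (abs_nonneg _)
        rw [le_div_iff₀ hK₃0, mul_comm]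
        exact hl.2
      exact_mod_cast Finset.card_le_card e0
    refine e1.trans ((SMC_int S c _ _ hc0 (by positivity)).trans ?_)
    have h7 : 2 * A / K₃ * |(dl z z' : ℝ)| / |c| ≤ 2 * A / K₃ * |(dl z z' : ℝ)| / N :=
      div_le_div_of_nonneg_left (by positivity) hN0 hc
    have h8 : 2 * A / K₃ * |(dl z z' : ℝ)| / N = 2 * Q := by
      rw [hQ, hdla]
      field_simp
    rw [h8] at h7
    linarith
  have hcard : (#Bd : ℝ) ≤ x * (16 * (Q + 1)) := by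
    by_cases hne : Bd = ∅
    · rw [hne, Finset.card_empty]
      push_cast
      positivity
    · obtain ⟨p₀, hp₀⟩ := Finset.nonempty_iff_ne_empty.2 hne
      have hsp : (N : ℝ) ≤ |(sp z z' : ℝ)| := by
        rw [hBd, Finset.mem_filter, Finset.mem_product, hS, Finset.mem_Ioc, Finset.mem_Ioc] at hp₀
        have h4 := hRNR.2.2 x N A hx hN hAx z hz z' hz' hdl p₀.1 p₀.2 hp₀.1.1.1 hp₀.1.2.1 hp₀.2.1
        have h5 : ((N : ℤ) : ℝ) ≤ ((|sp z z'| : ℤ) : ℝ) := by exact_mod_cast h4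
        push_cast at h5
        exact h5
      have h4 : (#Bd : ℝ) ≤ ∑ l₁ ∈ S, (#{l₂ ∈ S | (l₁, l₂) ∈ Bd} : ℝ) := by
        have h5 : (#Bd : ℝ) = ∑ p ∈ S ×ˢ S, if p ∈ Bd then (1 : ℝ) else 0 := by
          rw [← Finset.sum_filter, Finset.sum_const, nsmul_eq_mul, mul_one]
          congr 2
          ext p
          rw [Finset.mem_filter]
          constructor
          · intro h
            refine ⟨?_, h⟩
            rw [hBd, Finset.mem_filter] at h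
            exact h.1
          · exact fun h => h.2
        rw [h5, Finset.sum_product]
        refine Finset.sum_le_sum fun l₁ _ => ?_
        rw [← Finset.sum_filter, Finset.sum_const, nsmul_eq_mul, mul_one]
      refine h4.trans ?_
      have h5 : ∀ l₁ ∈ S, (#{l₂ ∈ S | (l₁, l₂) ∈ Bd} : ℝ) ≤ 16 * (Q + 1) := by
        intro l₁ _
        have hsub : (S.filter fun l₂ : ℤ => (l₁, l₂) ∈ Bd) ⊆
            ((S.filter fun l₂ : ℤ => (K₃ : ℝ) * |((sp z z' : ℝ) * l₁ - (N8 z : ℝ) * (l₂ : ℝ)) / dl z z' - 0| ≤ 2 * A) ∪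
             (S.filter fun l₂ : ℤ => (K₃ : ℝ) * |((sp z z' : ℝ) * l₁ - (N8 z : ℝ) * (l₂ : ℝ)) / dl z z' - A| ≤ 2 * A)) ∪
            ((S.filter fun l₂ : ℤ => (K₃ : ℝ) * |((N8 z' : ℝ) * l₁ - (sp z z' : ℝ) * (l₂ : ℝ)) / dl z z' - 0| ≤ 2 * A) ∪
             (S.filter fun l₂ : ℤ => (K₃ : ℝ) * |((N8 z' : ℝ) * l₁ - (sp z z' : ℝ) * (l₂ : ℝ)) / dl z z' - A| ≤ 2 * A)) := by
          intro l₂ hl₂
          rw [Finset.mem_filter] at hl₂
          rw [Finset.mem_union, Finset.mem_union, Finset.mem_union, Finset.mem_filter, Finset.mem_filter,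
            Finset.mem_filter, Finset.mem_filter]
          rcases hmem _ hl₂.2 with (h | h) | (h | h)
          · exact Or.inl (Or.inl ⟨hl₂.1, h⟩)
          · exact Or.inl (Or.inr ⟨hl₂.1, h⟩)
          · exact Or.inr (Or.inl ⟨hl₂.1, h⟩)
          · exact Or.inr (Or.inr ⟨hl₂.1, h⟩)
        have c1 := hline (N8 z) ((sp z z' : ℝ) * l₁) 0 hN8
        have c2 := hline (N8 z) ((sp z z' : ℝ) * l₁) A hN8
        have c3 := hline (sp z z') ((N8 z' : ℝ) * l₁) 0 hsp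
        have c4 := hline (sp z z') ((N8 z' : ℝ) * l₁) A hsp
        have h6 := (Finset.card_le_card hsub).trans ((Finset.card_union_le _ _).trans
          (add_le_add (Finset.card_union_le _ _) (Finset.card_union_le _ _)))
        have h7 : (#{l₂ ∈ S | (l₁, l₂) ∈ Bd} : ℝ) ≤
            (((S.filter fun l₂ : ℤ => (K₃ : ℝ) * |((sp z z' : ℝ) * l₁ - (N8 z : ℝ) * (l₂ : ℝ)) / dl z z' - 0| ≤ 2 * A).card : ℝ) +
             ((S.filter fun l₂ : ℤ => (K₃ : ℝ) * |((sp z z' : ℝ) * l₁ - (N8 z : ℝ) * (l₂ : ℝ)) / dl z z' - A| ≤ 2 * A).card : ℝ)) +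
            (((S.filter fun l₂ : ℤ => (K₃ : ℝ) * |((N8 z' : ℝ) * l₁ - (sp z z' : ℝ) * (l₂ : ℝ)) / dl z z' - 0| ≤ 2 * A).card : ℝ) +
             ((S.filter fun l₂ : ℤ => (K₃ : ℝ) * |((N8 z' : ℝ) * l₁ - (sp z z' : ℝ) * (l₂ : ℝ)) / dl z z' - A| ≤ 2 * A).card : ℝ)) := by
          exact_mod_cast h6
        linarith
      calc ∑ l₁ ∈ S, (#{l₂ ∈ S | (l₁, l₂) ∈ Bd} : ℝ) ≤ ∑ _l₁ ∈ S, 16 * (Q + 1) := Finset.sum_le_sum h5
        _ = x * (16 * (Q + 1)) := by rw [Finset.sum_const, nsmul_eq_mul, hSc]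
  refine h3.trans ?_
  rw [← hQ]
  have h8 := mul_le_mul_of_nonneg_right hcard (sq_nonneg M)
  calc (#Bd : ℝ) * M ^ 2 ≤ x * (16 * (Q + 1)) * M ^ 2 := h8
    _ = 16 * M ^ 2 * (x * (Q + 1)) := by ring

end Pool.Agent.EU
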